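import Pool.Agent.Q97.UM.Stm16
import Pool.Agent.Q14.UM.EK
import Pool.Agent.Q98.UM.LBM

set_option autoImplicit false

/-! Project UM9 (helper97), job JLD: joint large deviations of zeta at shifted points on the critical line. -/

namespace Pool.Agent.Q184.UM.J

open Filter Topology MeasureTheory Complex
open Pool.Agent.Q97.UM Pool.Agent.Q98.UM

noncomputable section

/-! ### the prime sum as a Dirichlet polynomial -/

theorem KB_le_X {D : ℝ} (hD : 1 ≤ D) (l : ℕ) : Pool.Agent.Q14.UM.KB' D l ≤ ⌊Real.exp D⌋₊ ^ 2 := by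
  unfold Pool.Agent.Q14.UM.KB'
  refine Nat.pow_le_pow_left (Nat.floor_le_floor ?_) 2
  have h1 := Pool.Agent.Q14.UM.XB_anti D (by linarith) (Nat.zero_le l)
  have h2 : XB D 0 = Real.exp D := by
    unfold XB
    simp
  rwa [h2] at h1

theorem qall_len {D : ℝ} (hD : 1 ≤ D) (h h2 : ℕ → ℂ) : ∀ n, ⌊Real.exp D⌋₊ ^ 2 < n → qall D h h2 n = 0 := by
  intro n hn
  unfold qall
  refine Finset.sum_eq_zero fun l _ => ?_
  exact Pool.Agent.Q14.UM.qb_len D h h2 l (by linarith) n (lt_of_le_of_lt (KB_le_X hD l) hn)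

theorem dp_qall {D : ℝ} (hD : 1 ≤ D) (h h2 : ℕ → ℂ) (t : ℝ) :
    dp (⌊Real.exp D⌋₊ ^ 2) (qall D h h2) t = PA ⌊Real.exp D⌋₊ h h2 t := by
  rw [← Pool.Agent.Q14.UM.sum_zj D h h2 hD t]
  have h1 : ∀ l ∈ Finset.range (JB D), dp (Pool.Agent.Q14.UM.KB' D l) (qb D h h2 l) t =
      dp (⌊Real.exp D⌋₊ ^ 2) (qb D h h2 l) t := by
    intro l _
    refine Pool.Agent.Q14.UM.dp_ext _ _ _ t (Pool.Agent.Q14.UM.qb_len D h h2 l (by linarith)) ?_
    intro n hn
    exact Pool.Agent.Q14.UM.qb_len D h h2 l (by linarith) n (lt_of_le_of_lt (KB_le_X hD l) hn)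
  rw [Finset.sum_congr rfl h1]
  unfold dp qall
  rw [Finset.sum_comm]
  refine Finset.sum_congr rfl fun n _ => ?_
  rw [Finset.sum_mul]

theorem dp_tilt (hDPM : S_DPM) {D : ℝ} (hD : 1 ≤ D) (h h2 : ℕ → ℂ) {M : ℕ} {e : ℕ → ℂ}
    (he : ∀ n, e n ≠ 0 → 1 ≤ n ∧ n ≤ M) (μ : ℂ) (t : ℝ) :
    dp (⌊Real.exp D⌋₊ ^ 2 * M) (fun n => cv (qall D h h2) e n - μ * e n) t =
      (PA ⌊Real.exp D⌋₊ h h2 t - μ) * dp M e t := by
  have h1 := hDPM.1 (⌊Real.exp D⌋₊ ^ 2) M (qall D h h2) e t (qall_len hD h h2) (supp_zero he)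
  rw [dp_qall hD] at h1
  have hX : 1 ≤ ⌊Real.exp D⌋₊ ^ 2 := by
    apply Nat.one_le_pow
    rw [Nat.floor_pos]
    exact Real.one_le_exp (by linarith)
  have h2' : dp (⌊Real.exp D⌋₊ ^ 2 * M) e t = dp M e t := by
    refine Pool.Agent.Q14.UM.dp_ext _ _ _ t ?_ (supp_zero he)
    intro n hn
    refine supp_zero he n (lt_of_le_of_lt ?_ hn)
    exact Nat.le_mul_of_pos_left M hX
  rw [sub_mul, h1, ← h2']
  unfold dp
  rw [Finset.mul_sum, ← Finset.sum_sub_distrib]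
  refine Finset.sum_congr rfl fun n _ => ?_
  ring

/-! ### coefficients -/

theorem ap_one (x : ℝ) : ap (fun _ : Fin 1 => (1 : ℝ)) (fun _ => x) = ua x := by
  funext p
  simp [ap, ua]

theorem PA_one (X : ℕ) (x t : ℝ) : (PA X (ua x) (ua (2 * x)) t).re =
    ∑ p ∈ (Finset.Icc 1 X).filter Nat.Prime,
        ((p : ℂ) ^ (-(1 / 2 + (t + x : ℝ) * I)) +
          ((p : ℂ) ^ (-(1 / 2 + (t + x : ℝ) * I))) ^ 2 / 2).re := by
  have h := PA_re (fun _ : Fin 1 => (1 : ℝ)) (fun _ => x) X t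
  rw [ap_one x, ap_one (2 * x)] at h
  rw [h, Fin.sum_univ_one, one_mul]

theorem EP_one (X : ℕ) (x t : ℝ) : |EP X (t + x) - (PA X (ua x) (ua (2 * x)) t).re| ≤ 2 * S3 := by
  have h := EP_PA (fun _ : Fin 1 => (1 : ℝ)) (fun _ => x) (A := 1) (by simp) X t
  rw [ap_one x, ap_one (2 * x), Fin.sum_univ_one, one_mul, one_mul] at h
  exact h

theorem PA_sum {n : ℕ} (k α : Fin n → ℝ) (X : ℕ) (t : ℝ) : (PA X (ap k α) (ap k fun j => 2 * α j) t).re =
    ∑ j, k j * (PA X (ua (α j)) (ua (2 * α j)) t).re := by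
  rw [PA_re]
  exact Finset.sum_congr rfl fun j _ => by rw [PA_one]

theorem ua_conj {p : ℕ} (hp : p ≠ 0) (x y : ℝ) : (ua x p * (starRingEnd ℂ) (ua y p)).re =
    Real.cos ((x - y) * Real.log p) := by
  have hp0 : (p : ℂ) ≠ 0 := by exact_mod_cast hp
  have h1 : ∀ z : ℝ, ua z p = cexp (((-(z * Real.log p) : ℝ) : ℂ) * I) := by
    intro z
    unfold ua
    rw [Complex.cpow_def_of_ne_zero hp0, ← Complex.natCast_log]
    congr 1
    push_cast
    ring
  rw [h1, h1, ← Complex.exp_conj, map_mul, Complex.conj_ofReal, Complex.conj_I, ← Complex.exp_add]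
  have h2 : ((-(x * Real.log p) : ℝ) : ℂ) * I + ((-(y * Real.log p) : ℝ) : ℂ) * -I =
      (((-((x - y) * Real.log p) : ℝ) : ℝ) : ℂ) * I := by
    push_cast
    ring
  rw [h2, Complex.exp_ofReal_mul_I_re, Real.cos_neg]

theorem mu_term {n : ℕ} (k α : Fin n → ℝ) (x : ℝ) (p : ℕ) : (ua x p * (starRingEnd ℂ) (ap k α p) / (p : ℂ)).re =
    ∑ l, k l * ((ua x p * (starRingEnd ℂ) (ua (α l) p)).re / p) := by
  have h1 : ua x p * (starRingEnd ℂ) (ap k α p) / (p : ℂ) =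
      ∑ l, ((k l / p : ℝ) : ℂ) * (ua x p * (starRingEnd ℂ) (ua (α l) p)) := by
    unfold ap
    rw [map_sum, Finset.mul_sum, Finset.sum_div]
    refine Finset.sum_congr rfl fun l _ => ?_
    rw [map_mul, Complex.conj_ofReal]
    unfold ua
    push_cast
    ring
  rw [h1, Complex.re_sum]
  refine Finset.sum_congr rfl fun l _ => ?_
  rw [Complex.re_ofReal_mul]
  ring

theorem mu_re {n : ℕ} (D : ℝ) (k α : Fin n → ℝ) (x : ℝ) : (mu D (ua x) (ap k α)).re =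
    ∑ l, k l * ∑ p ∈ (Finset.Icc 1 ⌊Real.exp D⌋₊).filter Nat.Prime, Real.cos ((x - α l) * Real.log p) / p := by
  unfold mu
  rw [Complex.re_sum]
  simp_rw [Finset.mul_sum]
  rw [Finset.sum_comm]
  refine Finset.sum_congr rfl fun p hp => ?_
  rw [mu_term]
  refine Finset.sum_congr rfl fun l _ => ?_
  rw [ua_conj (Finset.mem_filter.1 hp).2.ne_zero]

theorem Y_eq {n : ℕ} (D : ℝ) (k α : Fin n → ℝ) :
    ∑ p ∈ (Finset.Icc 1 ⌊Real.exp D⌋₊).filter Nat.Prime, ‖ap k α p‖ ^ 2 / p =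
      ∑ j, k j * (mu D (ua (α j)) (ap k α)).re := by
  unfold mu
  simp_rw [Complex.re_sum, Finset.mul_sum]
  rw [Finset.sum_comm]
  refine Finset.sum_congr rfl fun p _ => ?_
  have h1 : ∑ j, k j * (ua (α j) p * (starRingEnd ℂ) (ap k α p) / (p : ℂ)).re =
      (ap k α p * (starRingEnd ℂ) (ap k α p) / (p : ℂ)).re := by
    have h2 : ap k α p * (starRingEnd ℂ) (ap k α p) / (p : ℂ) =
        ∑ j, ((k j : ℝ) : ℂ) * (ua (α j) p * (starRingEnd ℂ) (ap k α p) / (p : ℂ)) := by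
      have h3 : ap k α p = ∑ j, (k j : ℂ) * ua (α j) p := rfl
      nth_rewrite 1 [h3]
      rw [Finset.sum_mul, Finset.sum_div]
      exact Finset.sum_congr rfl fun j _ => by ring
    rw [h2, Complex.re_sum]
    exact Finset.sum_congr rfl fun j _ => by rw [Complex.re_ofReal_mul]
  rw [h1, Complex.mul_conj]
  have h4 : ((normSq (ap k α p) : ℝ) : ℂ) / (p : ℂ) = ((normSq (ap k α p) / p : ℝ) : ℂ) := by push_cast; rfl
  rw [h4, Complex.ofReal_re, Complex.normSq_eq_norm_sq]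

/-- the means are close to the predicted values -/
theorem mu_pre {n : ℕ} {A CZ T D : ℝ} {X : ℕ} (hX : ⌊Real.exp D⌋₊ = X) (k α : Fin n → ℝ) (hk : ∑ j, |k j| ≤ A) (hCZ : 0 ≤ CZ)
    (h : ∀ u : ℝ, |(∑ p ∈ (Finset.Icc 1 X).filter Nat.Prime, Real.cos (u * Real.log p) / p) -
      Real.log ‖riemannZeta (1 + 1 / Real.log T + u * I)‖| ≤ CZ) (j : Fin n) :
    |(mu D (ua (α j)) (ap k α)).re - Pre T k α j| ≤ A * CZ := by
  rw [mu_re, hX]
  unfold Pre
  rw [← Finset.sum_sub_distrib]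
  refine (Finset.abs_sum_le_sum_abs _ _).trans ?_
  calc ∑ l, |k l * (∑ p ∈ (Finset.Icc 1 X).filter Nat.Prime, Real.cos ((α j - α l) * Real.log p) / p) -
        k l * Real.log ‖riemannZeta (1 + 1 / Real.log T + (α j - α l : ℝ) * I)‖| ≤ ∑ l, |k l| * CZ := by
        refine Finset.sum_le_sum fun l _ => ?_
        rw [← mul_sub, abs_mul]
        exact mul_le_mul_of_nonneg_left (h (α j - α l)) (abs_nonneg _)
    _ = (∑ l, |k l|) * CZ := by rw [Finset.sum_mul]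
    _ ≤ A * CZ := mul_le_mul_of_nonneg_right hk hCZ

/-! ### the set -/

theorem zt_cont : Continuous zt := by
  unfold zt
  rw [continuous_iff_continuousAt]
  intro t
  have h1 : (1 / 2 + (t : ℂ) * I) ≠ 1 := by
    intro h
    have := congrArg Complex.re h
    norm_num at this
  exact ContinuousAt.comp (g := riemannZeta) (f := fun t : ℝ => (1 / 2 + (t : ℂ) * I))
    (differentiableAt_riemannZeta h1).continuousAt (by fun_prop)

theorem meas_S {n : ℕ} (T R : ℝ) (α P : Fin n → ℝ) :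
    MeasurableSet {t : ℝ | T ≤ t ∧ t ≤ 2 * T ∧ ∀ j, |Real.log ‖zt (t + α j)‖ - P j| ≤ R} := by
  have h1 : {t : ℝ | T ≤ t ∧ t ≤ 2 * T ∧ ∀ j, |Real.log ‖zt (t + α j)‖ - P j| ≤ R} =
      Set.Icc T (2 * T) ∩ ⋂ j, {t : ℝ | |Real.log ‖zt (t + α j)‖ - P j| ≤ R} := by
    ext t
    simp only [Set.mem_ofPred_eq, Set.mem_inter_iff, Set.mem_Icc, Set.mem_iInter]
    tauto
  rw [h1]
  refine measurableSet_Icc.inter (MeasurableSet.iInter fun j => ?_)
  have h2 : Measurable fun t : ℝ => |Real.log ‖zt (t + α j)‖ - P j| := by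
    have h3 : Measurable fun t : ℝ => zt (t + α j) := (zt_cont.comp (by fun_prop)).measurable
    have h4 : Measurable fun t : ℝ => Real.log ‖zt (t + α j)‖ - P j := (Real.measurable_log.comp h3.norm).sub_const _
    exact measurable_norm.comp h4
  exact measurableSet_le h2 measurable_const

/-- from the integral of a minorant to the volume of a set -/
theorem vol_lower {T B : ℝ} (hT : 0 ≤ T) {φ : ℝ → ℝ} {S : Set ℝ} (hS : MeasurableSet S) (hS1 : S ⊆ Set.Icc T (2 * T))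
    (hφ : IntervalIntegrable φ volume T (2 * T)) (hle : ∀ t ∈ Set.Icc T (2 * T), φ t ≤ S.indicator (fun _ => B) t) :
    ∫ t in T..(2 * T), φ t ≤ B * volume.real S := by
  have h0 : T ≤ 2 * T := by linarith
  have hi : IntegrableOn φ (Set.Icc T (2 * T)) volume := (intervalIntegrable_iff_integrableOn_Icc_of_le h0).mp hφ
  have hfin : volume (Set.Icc T (2 * T)) < ⊤ := measure_Icc_lt_top
  have hI : IntegrableOn (S.indicator fun _ => B) (Set.Icc T (2 * T)) volume := by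
    have : IntegrableOn (fun _ : ℝ => B) (Set.Icc T (2 * T)) volume := integrableOn_const hfin.ne
    exact this.indicator hS
  rw [intervalIntegral.integral_of_le h0, ← integral_Icc_eq_integral_Ioc]
  refine (setIntegral_mono_on hi hI measurableSet_Icc hle).trans (le_of_eq ?_)
  rw [integral_indicator hS, Measure.restrict_restrict hS, Set.inter_eq_left.2 hS1, setIntegral_const, smul_eq_mul, mul_comm]

end

end Pool.Agent.Q184.UM.J

namespace Pool.Agent.Q184.UM.J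

open Filter Topology MeasureTheory Complex
open Pool.Agent.Q97.UM Pool.Agent.Q98.UM

noncomputable section

/-- the last step: from the weighted inequality to the volume -/
theorem jld_core {n J : ℕ} {A C₁ C₂ c₂ C₃ CZ T ℓ LL Y K K₁ n2 C : ℝ} {X : ℕ} {k α Pr : Fin n → ℝ}
    {F : ℝ → ℂ} {Pj : Fin n → ℝ → ℂ} {μ : Fin n → ℂ} {w : ℕ → ℝ} {W : ℕ → ℝ → ℝ}
    (hA : 1 ≤ A) (hk : ∑ j, |k j| ≤ A) (hn : (n : ℝ) ≤ A) (hT0 : 0 < T) (hC₁ : 0 ≤ C₁) (hC₂ : 0 ≤ C₂) (hc₂ : 0 < c₂) (hC₃ : 0 ≤ C₃)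
    (hCZ : 0 ≤ CZ) (hn2 : c₂ * Real.exp Y ≤ n2) (hFc : Continuous F)
    (hm1 : T / 2 * n2 ≤ ∫ t in T..(2 * T), ‖F t‖ ^ 2)
    (hw : ∀ i, 0 ≤ w i) (hWn : ∀ i t, 0 ≤ W i t)
    (hE : ∀ j, IntervalIntegrable (fun t => |Real.log ‖zt (t + α j)‖ - EP X (t + α j)| * ‖F t‖ ^ 2) volume T (2 * T) ∧
      ∫ t in T..(2 * T), |Real.log ‖zt (t + α j)‖ - EP X (t + α j)| * ‖F t‖ ^ 2 ≤ C₁ * T * n2)
    (hP : ∀ j, Continuous (fun t => ‖Pj j t - μ j‖ ^ 2 * ‖F t‖ ^ 2) ∧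
      ∫ t in T..(2 * T), ‖Pj j t - μ j‖ ^ 2 * ‖F t‖ ^ 2 ≤ 2 * T * (C₃ * ℓ * n2))
    (hWi : (∀ i, Continuous (fun t => W i t * ‖F t‖ ^ 2)) ∧
      ∑ i ∈ Finset.range J, w i * ∫ t in T..(2 * T), W i t * ‖F t‖ ^ 2 ≤ 2 * T * (C₂ * n2))
    (hEP : ∀ j t, |EP X (t + α j) - (Pj j t).re| ≤ 2 * S3)
    (hup : ∀ t, F t ≠ 0 → Real.log ‖F t‖ ≤ ∑ j, k j * (Pj j t).re + C₂ + ∑ i ∈ Finset.range J, w i * W i t)
    (hY : Y = ∑ j, k j * (μ j).re) (hμ : ∀ j, |(μ j).re - Pr j| ≤ A * CZ)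
    (hℓ1 : 1 ≤ ℓ) (hℓ2 : ℓ ≤ 2 * LL) (hLL : 1 ≤ LL)
    (hK₁ : K₁ = A * C₁ + 2 * A * C₃ + 2 * C₂) (hK : K = 4 * K₁ + 1)
    (hC : C = (3 * K + 2 * S3 + A * CZ) + (A * (A * CZ) + |Real.log (c₂ / 4)| + 4 * A * K + 2 * C₂ + 2 * K)) :
    T * Real.exp (-(∑ j, k j * Pr j) - C * Real.sqrt LL) ≤
      volume.real {t : ℝ | T ≤ t ∧ t ≤ 2 * T ∧ ∀ j, |Real.log ‖zt (t + α j)‖ - Pr j| ≤ C * Real.sqrt LL} := by
  have hS3 := S3_nonneg
  have hA0 : 0 ≤ A := by linarith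
  have hK₁0 : 0 ≤ K₁ := by rw [hK₁]; positivity
  have hK1 : 1 ≤ K := by linarith
  have hK0 : 0 < K := by linarith
  have hsL : 1 ≤ Real.sqrt LL := by
    rw [show (1 : ℝ) = Real.sqrt 1 by rw [Real.sqrt_one]]
    exact Real.sqrt_le_sqrt hLL
  have hsℓ : Real.sqrt ℓ ≤ 2 * Real.sqrt LL := by
    apply Real.sqrt_le_iff.2
    refine ⟨by positivity, ?_⟩
    rw [mul_pow, Real.sq_sqrt (by linarith)]
    linarith
  have hsℓ0 : 0 ≤ Real.sqrt ℓ := Real.sqrt_nonneg _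
  have hn20 : 0 < n2 := lt_of_lt_of_le (by positivity) hn2
  set S : Set ℝ := {t : ℝ | T ≤ t ∧ t ≤ 2 * T ∧ ∀ j, |Real.log ‖zt (t + α j)‖ - Pr j| ≤ C * Real.sqrt LL} with hSdef
  have hSm : MeasurableSet S := meas_S T _ α Pr
  -- the error function
  set g : ℝ → ℝ := fun t => (∑ j, |Real.log ‖zt (t + α j)‖ - EP X (t + α j)|) +
    (∑ j, ‖Pj j t - μ j‖ ^ 2 / ℓ) + ∑ i ∈ Finset.range J, w i * W i t with hg
  have hgF : ∀ t, g t * ‖F t‖ ^ 2 = (∑ j, |Real.log ‖zt (t + α j)‖ - EP X (t + α j)| * ‖F t‖ ^ 2) +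
      (∑ j, 1 / ℓ * (‖Pj j t - μ j‖ ^ 2 * ‖F t‖ ^ 2)) + ∑ i ∈ Finset.range J, w i * (W i t * ‖F t‖ ^ 2) := by
    intro t
    simp only [hg]
    rw [add_mul, add_mul, Finset.sum_mul, Finset.sum_mul, Finset.sum_mul]
    congr 1
    · congr 1
      exact Finset.sum_congr rfl fun j _ => by ring
    · exact Finset.sum_congr rfl fun j _ => by ring
  have hg0 : ∀ t, 0 ≤ g t := by
    intro t
    simp only [hg]
    have h1 : 0 ≤ ∑ j, |Real.log ‖zt (t + α j)‖ - EP X (t + α j)| := Finset.sum_nonneg fun j _ => abs_nonneg _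
    have h2 : 0 ≤ ∑ j, ‖Pj j t - μ j‖ ^ 2 / ℓ := Finset.sum_nonneg fun j _ => by positivity
    have h3 : 0 ≤ ∑ i ∈ Finset.range J, w i * W i t := Finset.sum_nonneg fun i _ => mul_nonneg (hw i) (hWn i t)
    linarith
  have i1 : IntervalIntegrable (fun t => ∑ j, |Real.log ‖zt (t + α j)‖ - EP X (t + α j)| * ‖F t‖ ^ 2) volume T (2 * T) := by
    have := IntervalIntegrable.sum Finset.univ (f := fun j t =>
      |Real.log ‖zt (t + α j)‖ - EP X (t + α j)| * ‖F t‖ ^ 2) (μ := volume) (a := T) (b := 2 * T)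
      fun j _ => (hE j).1
    have e1 : (fun t => ∑ j, |Real.log ‖zt (t + α j)‖ - EP X (t + α j)| * ‖F t‖ ^ 2) = ∑ j, fun t =>
        |Real.log ‖zt (t + α j)‖ - EP X (t + α j)| * ‖F t‖ ^ 2 := by
      funext t
      rw [Finset.sum_apply]
    rw [e1]
    exact this
  have i2 : IntervalIntegrable (fun t => ∑ j, 1 / ℓ * (‖Pj j t - μ j‖ ^ 2 * ‖F t‖ ^ 2)) volume T (2 * T) :=
    (continuous_finsetSum _ fun j _ => continuous_const.mul (hP j).1).intervalIntegrable _ _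
  have i3 : IntervalIntegrable (fun t => ∑ i ∈ Finset.range J, w i * (W i t * ‖F t‖ ^ 2)) volume T (2 * T) :=
    (continuous_finsetSum _ fun j _ => continuous_const.mul (hWi.1 j)).intervalIntegrable _ _
  have iF : IntervalIntegrable (fun t => ‖F t‖ ^ 2) volume T (2 * T) := (hFc.norm.pow 2).intervalIntegrable _ _
  have igF : IntervalIntegrable (fun t => g t * ‖F t‖ ^ 2) volume T (2 * T) := by
    simp only [hgF]
    exact (i1.add i2).add i3
  have hTn : 0 ≤ T * n2 := by positivity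
  have hint : ∫ t in T..(2 * T), g t * ‖F t‖ ^ 2 ≤ K₁ * (T * n2) := by
    simp only [hgF]
    rw [intervalIntegral.integral_add (i1.add i2) i3, intervalIntegral.integral_add i1 i2]
    have i2' : ∀ j ∈ (Finset.univ : Finset (Fin n)), IntervalIntegrable (fun t => 1 / ℓ * (‖Pj j t - μ j‖ ^ 2 * ‖F t‖ ^ 2))
        volume T (2 * T) := fun j _ => (continuous_const.mul (hP j).1).intervalIntegrable _ _
    have i3' : ∀ i ∈ Finset.range J, IntervalIntegrable (fun t => w i * (W i t * ‖F t‖ ^ 2)) volume T (2 * T) :=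
      fun i _ => (continuous_const.mul (hWi.1 i)).intervalIntegrable _ _
    rw [intervalIntegral.integral_finsetSum fun j _ => (hE j).1, intervalIntegral.integral_finsetSum i2',
      intervalIntegral.integral_finsetSum i3']
    have b1 : ∑ j, ∫ t in T..(2 * T), |Real.log ‖zt (t + α j)‖ - EP X (t + α j)| * ‖F t‖ ^ 2 ≤ A * (C₁ * (T * n2)) := by
      calc ∑ j, ∫ t in T..(2 * T), |Real.log ‖zt (t + α j)‖ - EP X (t + α j)| * ‖F t‖ ^ 2
          ≤ ∑ _j : Fin n, C₁ * (T * n2) := Finset.sum_le_sum fun j _ => (hE j).2.trans (le_of_eq (by ring))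
        _ = n * (C₁ * (T * n2)) := by rw [Finset.sum_const, Finset.card_univ, Fintype.card_fin, nsmul_eq_mul]
        _ ≤ A * (C₁ * (T * n2)) := mul_le_mul_of_nonneg_right hn (by positivity)
    have b2 : ∑ j, ∫ t in T..(2 * T), 1 / ℓ * (‖Pj j t - μ j‖ ^ 2 * ‖F t‖ ^ 2) ≤ A * (2 * C₃ * (T * n2)) := by
      have hℓ0 : ℓ ≠ 0 := by linarith
      calc ∑ j, ∫ t in T..(2 * T), 1 / ℓ * (‖Pj j t - μ j‖ ^ 2 * ‖F t‖ ^ 2)
          ≤ ∑ _j : Fin n, 2 * C₃ * (T * n2) := by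
            refine Finset.sum_le_sum fun j _ => ?_
            rw [intervalIntegral.integral_const_mul]
            refine (mul_le_mul_of_nonneg_left (hP j).2 (by positivity)).trans (le_of_eq ?_)
            field_simp
        _ = n * (2 * C₃ * (T * n2)) := by rw [Finset.sum_const, Finset.card_univ, Fintype.card_fin, nsmul_eq_mul]
        _ ≤ A * (2 * C₃ * (T * n2)) := mul_le_mul_of_nonneg_right hn (by positivity)
    have b3 : ∑ i ∈ Finset.range J, ∫ t in T..(2 * T), w i * (W i t * ‖F t‖ ^ 2) ≤ 2 * T * (C₂ * n2) := by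
      refine le_trans (le_of_eq ?_) hWi.2
      exact Finset.sum_congr rfl fun i _ => by rw [intervalIntegral.integral_const_mul]
    have b4 : A * (C₁ * (T * n2)) + A * (2 * C₃ * (T * n2)) + 2 * T * (C₂ * n2) = K₁ * (T * n2) := by rw [hK₁]; ring
    linarith
  obtain ⟨B, hB⟩ : ∃ B : ℝ, B = Real.exp (2 * Y + 2 * A * K * Real.sqrt ℓ + 2 * C₂ + 2 * K) := ⟨_, rfl⟩
  have hB0 : 0 < B := by rw [hB]; exact Real.exp_pos _
  have hle : ∀ t ∈ Set.Icc T (2 * T), ‖F t‖ ^ 2 - 1 / K * (g t * ‖F t‖ ^ 2) ≤ S.indicator (fun _ => B) t := by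
    intro t ht
    have hFn : 0 ≤ ‖F t‖ ^ 2 := by positivity
    by_cases hgt : g t ≤ K
    · -- good points
      have h1 : 0 ≤ ∑ j, |Real.log ‖zt (t + α j)‖ - EP X (t + α j)| := Finset.sum_nonneg fun j _ => abs_nonneg _
      have h2 : 0 ≤ ∑ j, ‖Pj j t - μ j‖ ^ 2 / ℓ := Finset.sum_nonneg fun j _ => by positivity
      have h3 : 0 ≤ ∑ i ∈ Finset.range J, w i * W i t := Finset.sum_nonneg fun i _ => mul_nonneg (hw i) (hWn i t)
      simp only [hg] at hgt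
      have g1 : ∀ j, |Real.log ‖zt (t + α j)‖ - EP X (t + α j)| ≤ K := by
        intro j
        have := Finset.single_le_sum (f := fun j => |Real.log ‖zt (t + α j)‖ - EP X (t + α j)|)
          (fun i _ => abs_nonneg _) (Finset.mem_univ j)
        linarith
      have g2 : ∀ j, ‖Pj j t - μ j‖ ≤ K * Real.sqrt ℓ := by
        intro j
        have h4 := Finset.single_le_sum (f := fun j => ‖Pj j t - μ j‖ ^ 2 / ℓ)
          (fun i _ => by positivity) (Finset.mem_univ j)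
        have h5 : ‖Pj j t - μ j‖ ^ 2 / ℓ ≤ K := by linarith
        rw [div_le_iff₀ (by linarith)] at h5
        have h6 : ‖Pj j t - μ j‖ ^ 2 ≤ (K * Real.sqrt ℓ) ^ 2 := by
          rw [mul_pow, Real.sq_sqrt (by linarith)]
          have : K * ℓ ≤ K ^ 2 * ℓ := by
            apply mul_le_mul_of_nonneg_right _ (by linarith)
            nlinarith
          linarith
        exact le_of_sq_le_sq h6 (by positivity)
      have g3 : ∑ i ∈ Finset.range J, w i * W i t ≤ K := by linarith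
      have hre : ∀ j, |(Pj j t).re - (μ j).re| ≤ K * Real.sqrt ℓ := by
        intro j
        rw [← Complex.sub_re]
        exact (Complex.abs_re_le_norm _).trans (g2 j)
      have hmem : t ∈ S := by
        refine ⟨ht.1, ht.2, fun j => ?_⟩
        have e1 : Real.log ‖zt (t + α j)‖ - Pr j = (Real.log ‖zt (t + α j)‖ - EP X (t + α j)) +
            (EP X (t + α j) - (Pj j t).re) + ((Pj j t).re - (μ j).re) + ((μ j).re - Pr j) := by ring
        rw [e1]
        have e2 : |(Real.log ‖zt (t + α j)‖ - EP X (t + α j)) +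
            (EP X (t + α j) - (Pj j t).re) + ((Pj j t).re - (μ j).re) + ((μ j).re - Pr j)| ≤
            K + 2 * S3 + K * Real.sqrt ℓ + A * CZ := by
          refine (abs_add_le _ _).trans (add_le_add ?_ (hμ j))
          refine (abs_add_le _ _).trans (add_le_add ?_ (hre j))
          exact (abs_add_le _ _).trans (add_le_add (g1 j) (hEP j t))
        refine e2.trans ?_
        have e3 : K * Real.sqrt ℓ ≤ 2 * K * Real.sqrt LL := by
          have := mul_le_mul_of_nonneg_left hsℓ hK0.le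
          linarith
        have e4 : (K + 2 * S3 + A * CZ) * 1 ≤ (K + 2 * S3 + A * CZ) * Real.sqrt LL :=
          mul_le_mul_of_nonneg_left hsL (by positivity)
        have e5 : (3 * K + 2 * S3 + A * CZ) * Real.sqrt LL ≤ C * Real.sqrt LL := by
          apply mul_le_mul_of_nonneg_right _ (by linarith)
          rw [hC]
          have : 0 ≤ A * (A * CZ) + |Real.log (c₂ / 4)| + 4 * A * K + 2 * C₂ + 2 * K := by positivity
          linarith
        linarith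
      rw [Set.indicator_of_mem hmem]
      have hFB : ‖F t‖ ^ 2 ≤ B := by
        by_cases hF0 : F t = 0
        · rw [hF0, norm_zero]
          norm_num
          exact hB0.le
        have hu := hup t hF0
        have e1 : ∑ j, k j * (Pj j t).re ≤ Y + A * (K * Real.sqrt ℓ) := by
          rw [hY]
          have e2 : ∑ j, k j * (Pj j t).re = ∑ j, k j * (μ j).re + ∑ j, k j * ((Pj j t).re - (μ j).re) := by
            rw [← Finset.sum_add_distrib]
            exact Finset.sum_congr rfl fun j _ => by ring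
          rw [e2]
          have e3 : ∑ j, k j * ((Pj j t).re - (μ j).re) ≤ ∑ j, |k j| * (K * Real.sqrt ℓ) := by
            refine Finset.sum_le_sum fun j _ => ?_
            refine (le_abs_self _).trans ?_
            rw [abs_mul]
            exact mul_le_mul_of_nonneg_left (hre j) (abs_nonneg _)
          rw [← Finset.sum_mul] at e3
          have e4 : (∑ j, |k j|) * (K * Real.sqrt ℓ) ≤ A * (K * Real.sqrt ℓ) :=
            mul_le_mul_of_nonneg_right hk (by positivity)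
          linarith
        have e2 : ‖F t‖ ^ 2 = Real.exp (2 * Real.log ‖F t‖) := by
          rw [two_mul, Real.exp_add, Real.exp_log (norm_pos_iff.mpr hF0), sq]
        rw [e2, hB]
        apply Real.exp_le_exp.2
        have e5 : 2 * A * K * Real.sqrt ℓ = 2 * (A * (K * Real.sqrt ℓ)) := by ring
        linarith
      have h5 : 0 ≤ 1 / K * (g t * ‖F t‖ ^ 2) := by
        have := hg0 t
        positivity
      linarith
    · push Not at hgt
      have h5 : ‖F t‖ ^ 2 ≤ 1 / K * (g t * ‖F t‖ ^ 2) := by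
        rw [div_mul_eq_mul_div, one_mul, le_div_iff₀ hK0, mul_comm]
        exact mul_le_mul_of_nonneg_right hgt.le hFn
      have h6 : 0 ≤ S.indicator (fun _ => B) t := Set.indicator_nonneg (fun _ _ => hB0.le) t
      linarith
  have hvol := vol_lower (B := B) hT0.le hSm (fun t ht => ⟨ht.1, ht.2.1⟩) (iF.sub (igF.const_mul (1 / K))) hle
  rw [intervalIntegral.integral_sub iF (igF.const_mul (1 / K)), intervalIntegral.integral_const_mul] at hvol
  have h7 : 1 / K * ∫ t in T..(2 * T), g t * ‖F t‖ ^ 2 ≤ 1 / 4 * (T * n2) := by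
    have h8 : 1 / K * ∫ t in T..(2 * T), g t * ‖F t‖ ^ 2 ≤ 1 / K * (K₁ * (T * n2)) :=
      mul_le_mul_of_nonneg_left hint (by positivity)
    have h9 : 1 / K * (K₁ * (T * n2)) = K₁ / K * (T * n2) := by ring
    have h10 : K₁ / K ≤ 1 / 4 := by
      rw [div_le_iff₀ hK0]
      linarith
    rw [h9] at h8
    exact h8.trans (mul_le_mul_of_nonneg_right h10 hTn)
  have h8 : T * (c₂ / 4 * Real.exp Y) ≤ B * volume.real S := by
    have : T * (c₂ * Real.exp Y) ≤ T * n2 := mul_le_mul_of_nonneg_left hn2 hT0.le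
    linarith
  -- conclusion
  have h9 : T * Real.exp (-(∑ j, k j * Pr j) - C * Real.sqrt LL) * B ≤ T * (c₂ / 4 * Real.exp Y) := by
    rw [mul_assoc]
    refine mul_le_mul_of_nonneg_left ?_ hT0.le
    have hc4 : 0 < c₂ / 4 := by positivity
    rw [← Real.exp_log hc4, hB, ← Real.exp_add, ← Real.exp_add]
    apply Real.exp_le_exp.2
    have e1 : |∑ j, k j * (μ j).re - ∑ j, k j * Pr j| ≤ A * (A * CZ) := by
      rw [← Finset.sum_sub_distrib]
      refine (Finset.abs_sum_le_sum_abs _ _).trans ?_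
      calc ∑ j, |k j * (μ j).re - k j * Pr j| ≤ ∑ j, |k j| * (A * CZ) := by
            refine Finset.sum_le_sum fun j _ => ?_
            rw [← mul_sub, abs_mul]
            exact mul_le_mul_of_nonneg_left (hμ j) (abs_nonneg _)
        _ = (∑ j, |k j|) * (A * CZ) := by rw [Finset.sum_mul]
        _ ≤ A * (A * CZ) := mul_le_mul_of_nonneg_right hk (by positivity)
    rw [← hY] at e1
    have e2 := (abs_le.1 e1).2
    have e3 : 2 * A * K * Real.sqrt ℓ ≤ 4 * A * K * Real.sqrt LL := by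
      have : 2 * A * K * Real.sqrt ℓ ≤ 2 * A * K * (2 * Real.sqrt LL) :=
        mul_le_mul_of_nonneg_left hsℓ (by positivity)
      linarith
    have e4 : (A * (A * CZ) + |Real.log (c₂ / 4)| + 2 * C₂ + 2 * K) * 1 ≤
        (A * (A * CZ) + |Real.log (c₂ / 4)| + 2 * C₂ + 2 * K) * Real.sqrt LL :=
      mul_le_mul_of_nonneg_left hsL (by positivity)
    have e5 : ((A * (A * CZ) + |Real.log (c₂ / 4)| + 2 * C₂ + 2 * K) + 4 * A * K) * Real.sqrt LL ≤ C * Real.sqrt LL := by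
      apply mul_le_mul_of_nonneg_right _ (by linarith)
      rw [hC]
      have : 0 ≤ 3 * K + 2 * S3 + A * CZ := by positivity
      linarith
    have e6 := neg_abs_le (Real.log (c₂ / 4))
    rw [add_mul] at e5
    linarith
  have h10 : T * Real.exp (-(∑ j, k j * Pr j) - C * Real.sqrt LL) * B ≤ volume.real S * B := by
    rw [mul_comm (volume.real S)]
    exact h9.trans h8
  exact le_of_mul_le_mul_right h10 hB0

theorem t_JLD : J_JLD := by
  intro hTLT hEK hTHP hMZ hDPM hMVL A hA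
  obtain ⟨κ₁, hκ₁, hEK⟩ := hEK A hA
  obtain ⟨κ₂, hκ₂, hTLT⟩ := hTLT A hA
  obtain ⟨κ, hκa, hκb⟩ : ∃ κ : ℝ, κ₁ ≤ κ ∧ κ₂ ≤ κ := ⟨max κ₁ κ₂, le_max_left _ _, le_max_right _ _⟩
  have hκ4 : 4 ≤ κ := hκ₁.trans hκa
  obtain ⟨C₃, hC₃, hTLT⟩ := hTLT κ hκb
  obtain ⟨θ₀, δ₀, hθ₀, hδ₀, hTHP⟩ := hTHP 1
  have hκ1 : 0 < 1 + 26 * κ := by linarith
  obtain ⟨δ, hδ, hδ1, hδ2, hδ3⟩ : ∃ δ : ℝ, 0 < δ ∧ (1 + 26 * κ) * δ ≤ 1 / 40 ∧ δ ≤ δ₀ ∧
      (1 + 26 * κ) * δ ≤ θ₀ := by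
    refine ⟨min (1 / 40 / (1 + 26 * κ)) (min δ₀ (θ₀ / (1 + 26 * κ))), by positivity, ?_, ?_, ?_⟩
    · calc (1 + 26 * κ) * min (1 / 40 / (1 + 26 * κ)) (min δ₀ (θ₀ / (1 + 26 * κ)))
          ≤ (1 + 26 * κ) * (1 / 40 / (1 + 26 * κ)) := mul_le_mul_of_nonneg_left (min_le_left _ _) hκ1.le
        _ = _ := by field_simp
    · exact (min_le_right _ _).trans (min_le_left _ _)
    · calc (1 + 26 * κ) * min (1 / 40 / (1 + 26 * κ)) (min δ₀ (θ₀ / (1 + 26 * κ)))
          ≤ (1 + 26 * κ) * (θ₀ / (1 + 26 * κ)) :=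
            mul_le_mul_of_nonneg_left ((min_le_right _ _).trans (min_le_right _ _)) hκ1.le
        _ = _ := by field_simp
  have hδle : δ ≤ (1 + 26 * κ) * δ := by nlinarith
  have hδ40 : δ ≤ 1 / 40 := hδle.trans hδ1
  have hδ11 : δ ≤ 1 := by linarith
  obtain ⟨C₁, hC₁, hTHP⟩ := hTHP δ hδ hδ2
  obtain ⟨C₂, c₂, hC₂, hc₂, hEK⟩ := hEK κ δ hκa hδ
  obtain ⟨CZ, hMZ⟩ := hMZ δ hδ hδ11
  have hS3 := S3_nonneg
  obtain ⟨K₁, hK₁⟩ : ∃ K₁ : ℝ, K₁ = A * C₁ + 2 * A * C₃ + 2 * C₂ := ⟨_, rfl⟩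
  obtain ⟨K, hK⟩ : ∃ K : ℝ, K = 4 * K₁ + 1 := ⟨_, rfl⟩
  have hA0 : 0 ≤ A := by linarith
  have hK₁0 : 0 ≤ K₁ := by rw [hK₁]; positivity
  have hK0 : 0 ≤ K := by linarith
  obtain ⟨C, hC⟩ : ∃ C : ℝ, C = (3 * K + 2 * S3 + A * |CZ|) + (A * (A * |CZ|) + |Real.log (c₂ / 4)| + 4 * A * K + 2 * C₂ + 2 * K) :=
    ⟨_, rfl⟩
  have hC0 : 0 ≤ C := by rw [hC]; positivity
  refine ⟨C, hC0, ?_⟩
  have hLLt : Tendsto (fun T : ℝ => Real.log (Real.log T)) atTop atTop := Real.tendsto_log_atTop.comp Real.tendsto_log_atTop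
  filter_upwards [hTHP, hEK, hMZ, eventually_ge_atTop 16, hLLt.eventually_ge_atTop 1,
    Real.tendsto_log_atTop.eventually_ge_atTop (1 / δ)] with T hTHP hEK hMZ hT16 hLL hLδ n k α hn hk hα
  have hT0 : 0 < T := by linarith
  have hT1 : 1 ≤ T := by linarith
  have hL0 : 0 < Real.log T := Real.log_pos (by linarith)
  obtain ⟨D, hD⟩ : ∃ D : ℝ, D = δ * Real.log T := ⟨_, rfl⟩
  have hDexp : Real.exp D = T ^ δ := by
    rw [hD, Real.rpow_def_of_pos hT0, mul_comm]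
  have hD1 : 1 ≤ D := by
    rw [hD]
    rw [div_le_iff₀ hδ] at hLδ
    linarith
  obtain ⟨J, M₀, q, w, hd⟩ := hEK (ap k α) (ap k fun j => 2 * α j) (norm_ap_le k α hk) (norm_ap_le k _ hk)
  rw [← hD] at hd
  obtain ⟨M, hM⟩ : ∃ M : ℕ, M = M9 D κ := ⟨_, rfl⟩
  obtain ⟨e, he⟩ : ∃ e : ℕ → ℂ, e = ebk D κ (ap k α) (ap k fun j => 2 * α j) 0 (JB D) := ⟨_, rfl⟩
  rw [← hM, ← he] at hd
  have e26 : 20 * (13 / 10 * κ) = 26 * κ := by ring
  have hML : (M : ℝ) ≤ T ^ (26 * κ * δ) := by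
    have := hd.len
    rwa [e26] at this
  have hmean := hd.mean
  rw [e26] at hmean
  have hn2 := hd.low
  have hn20 : 0 < N2 M e := lt_of_lt_of_le (by positivity) hn2
  have hM1 : 1 ≤ M := by
    by_contra h
    have h0 : M = 0 := by omega
    rw [h0] at hn20
    unfold N2 at hn20
    simp at hn20
  have hpow : ∀ {x y : ℝ}, x ≤ y → T ^ x ≤ T ^ y := fun h => Real.rpow_le_rpow_of_exponent_le hT1 h
  have hML2 : (M : ℝ) ≤ T ^ ((1 + 26 * κ) * δ) := hML.trans (hpow (by nlinarith))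
  have hMq : (M : ℝ) ≤ T ^ (1 / 4 : ℝ) := hML2.trans (hpow (by linarith))
  obtain ⟨m1, m2⟩ := hMVL T hT16 M hMq e
  obtain ⟨X, hX⟩ : ∃ X : ℕ, X = ⌊T ^ δ⌋₊ := ⟨_, rfl⟩
  have hXD : ⌊Real.exp D⌋₊ = X := by rw [hDexp, hX]
  rw [← hX] at hTHP hMZ hn2
  have hup := hd.up
  rw [← hX] at hup
  have hXle : (X : ℝ) ≤ T ^ δ := by rw [hX]; exact Nat.floor_le (by positivity)
  -- lengths
  have hlen3 : ((M₀ ^ 3 * M : ℕ) : ℝ) ≤ T ^ (1 / 4 : ℝ) := by
    have e1 : ((M₀ ^ 3 * M : ℕ) : ℝ) ≤ (T ^ (2 * δ)) ^ 3 * T ^ ((1 + 26 * κ) * δ) := by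
      push_cast
      exact mul_le_mul (pow_le_pow_left₀ (Nat.cast_nonneg _) hd.M0 3) hML2 (by positivity) (by positivity)
    refine e1.trans ?_
    rw [← Real.rpow_natCast, ← Real.rpow_mul hT0.le, ← Real.rpow_add hT0]
    refine hpow ?_
    push_cast
    linarith
  have hlen2 : ((X ^ 2 * M : ℕ) : ℝ) ≤ T ^ (1 / 4 : ℝ) := by
    have e1 : ((X ^ 2 * M : ℕ) : ℝ) ≤ (T ^ δ) ^ 2 * T ^ ((1 + 26 * κ) * δ) := by
      push_cast
      exact mul_le_mul (pow_le_pow_left₀ (Nat.cast_nonneg _) hXle 2) hML2 (by positivity) (by positivity)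
    refine e1.trans ?_
    rw [← Real.rpow_natCast, ← Real.rpow_mul hT0.le, ← Real.rpow_add hT0]
    refine hpow ?_
    push_cast
    linarith
  have hDlog : 1 + Real.log D ≤ 2 * Real.log (Real.log T) := by
    have h1 : Real.log D ≤ Real.log (Real.log T) := by
      apply Real.log_le_log (by linarith)
      rw [hD]
      nlinarith
    linarith
  have hDlog1 : 1 ≤ 1 + Real.log D := by
    have := Real.log_nonneg hD1
    linarith
  have hCZ' : ∀ u : ℝ, |(∑ p ∈ (Finset.Icc 1 X).filter Nat.Prime, Real.cos (u * Real.log p) / p) -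
      Real.log ‖riemannZeta (1 + 1 / Real.log T + u * I)‖| ≤ |CZ| := fun u => (hMZ u).trans (le_abs_self _)
  refine jld_core (J := J) (C₁ := C₁) (C₂ := C₂) (c₂ := c₂) (C₃ := C₃) (CZ := |CZ|) (ℓ := 1 + Real.log D)
    (Y := ∑ p ∈ (Finset.Icc 1 X).filter Nat.Prime, ‖ap k α p‖ ^ 2 / p) (n2 := N2 M e) (X := X)
    (F := dp M e) (Pj := fun j => PA X (ua (α j)) (ua (2 * α j))) (μ := fun j => mu D (ua (α j)) (ap k α))
    (w := w) (W := fun i t => ‖dp M₀ (q i) t‖ ^ 6) (Pr := fun j => Pre T k α j)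
    hA hk hn hT0 hC₁ hC₂ hc₂ hC₃ (abs_nonneg _) hn2 (hDPM.2.2 M e 0).2 m1 hd.wn (fun i t => by positivity)
    ?_ ?_ ?_ ?_ ?_ ?_ ?_ hDlog1 hDlog hLL hK₁ hK hC
  · intro j
    refine shift_bd hDPM hT0.le (fun b' => ?_) (hα j)
    exact hTHP M (hML2.trans (hpow hδ3)) b'
  · intro j
    have h1 : ∀ t, ‖PA X (ua (α j)) (ua (2 * α j)) t - mu D (ua (α j)) (ap k α)‖ ^ 2 * ‖dp M e t‖ ^ 2 =
        ‖dp (X ^ 2 * M) (fun n => cv (qall D (ua (α j)) (ua (2 * α j))) e n - mu D (ua (α j)) (ap k α) * e n) t‖ ^ 2 := by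
      intro t
      have h2 := dp_tilt hDPM hD1 (ua (α j)) (ua (2 * α j)) hd.supp (mu D (ua (α j)) (ap k α)) t
      rw [hXD] at h2
      rw [h2, norm_mul, mul_pow]
    simp only [h1]
    refine ⟨((hDPM.2.2 _ _ 0).2.norm.pow 2), ?_⟩
    refine (hMVL T hT16 _ hlen2 _).2.trans ?_
    refine mul_le_mul_of_nonneg_left ?_ (by positivity)
    have hn1 : ∀ x : ℝ, ∀ m : ℕ, ‖ua x m‖ ≤ A := fun x m => (norm_cpow_I_le m x).trans hA
    have h3 := hTLT D hD1 (ap k α) (ap k fun j => 2 * α j) (ua (α j)) (ua (2 * α j)) (norm_ap_le k α hk)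
      (norm_ap_le k _ hk) (hn1 _) (hn1 _)
    rw [hXD, ← hM, ← he] at h3
    exact h3
  · refine ⟨fun i => ?_, ?_⟩
    · have h1 : (fun t => ‖dp M₀ (q i) t‖ ^ 6 * ‖dp M e t‖ ^ 2) = fun t =>
          ‖dp (M₀ ^ 3 * M) (cv (q i) (cv (q i) (cv (q i) e))) t‖ ^ 2 := funext fun t =>
        dp_cube hDPM (hd.qs i) hd.supp t
      rw [h1]
      exact (hDPM.2.2 _ _ 0).2.norm.pow 2
    · calc ∑ i ∈ Finset.range J, w i * ∫ t in T..(2 * T), ‖dp M₀ (q i) t‖ ^ 6 * ‖dp M e t‖ ^ 2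
          ≤ ∑ i ∈ Finset.range J, w i * (2 * T * N2 (M₀ ^ 3 * M) (cv (q i) (cv (q i) (cv (q i) e)))) := by
            refine Finset.sum_le_sum fun i _ => mul_le_mul_of_nonneg_left ?_ (hd.wn i)
            have h1 : ∀ t, ‖dp M₀ (q i) t‖ ^ 6 * ‖dp M e t‖ ^ 2 =
                ‖dp (M₀ ^ 3 * M) (cv (q i) (cv (q i) (cv (q i) e))) t‖ ^ 2 := fun t =>
              dp_cube hDPM (hd.qs i) hd.supp t
            simp only [h1]
            exact (hMVL T hT16 _ hlen3 _).2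
        _ = 2 * T * ∑ i ∈ Finset.range J, w i * N2 (M₀ ^ 3 * M) (cv (q i) (cv (q i) (cv (q i) e))) := by
            rw [Finset.mul_sum]
            exact Finset.sum_congr rfl fun i _ => by ring
        _ ≤ 2 * T * (C₂ * N2 M e) :=
            mul_le_mul_of_nonneg_left (hmean M e hM1 hML2 (supp_zero hd.supp)) (by positivity)
  · intro j t
    exact EP_one X (α j) t
  · intro t ht
    refine (hup t ht).trans (le_of_eq ?_)
    rw [PA_sum]
  · rw [← hXD]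
    exact Y_eq D k α
  · intro j
    exact mu_pre hXD k α hk (abs_nonneg _) hCZ' j

end

end Pool.Agent.Q184.UM.J
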