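import Pool.Agent.Q97.UM.Stm14

set_option autoImplicit false

/-! Project UM8 (helper97), job UBM: the upper bound for products of shifted values of zeta of small real orders, relative to every Dirichlet
polynomial. -/

namespace Pool.Agent.Q184.UM

open Filter Topology MeasureTheory Complex
open Pool.Agent.Q97.UM

noncomputable section

theorem zt_cont : Continuous zt := by
  unfold zt
  rw [continuous_iff_continuousAt]
  intro t
  have h1 : (1 / 2 + (t : ℂ) * I) ≠ 1 := by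
    intro h
    have := congrArg Complex.re h
    norm_num at this
  exact ContinuousAt.comp (g := riemannZeta) (f := fun t : ℝ => (1 / 2 + (t : ℂ) * I))
    (differentiableAt_riemannZeta h1).continuousAt (by fun_prop)

theorem dp_cont (M : ℕ) (c : ℕ → ℂ) : Continuous (dp M c) := by
  unfold dp
  apply continuous_finsetSum
  intro n hn
  have hn1 : 1 ≤ n := (Finset.mem_Icc.mp hn).1
  apply continuous_const.mul
  apply Continuous.const_cpow (by fun_prop)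
  left
  exact_mod_cast (by omega : n ≠ 0)

theorem zf_cont (D : ℝ) (a a2 : ℕ → ℂ) (j : ℕ) : Continuous (zf D a a2 j) := by
  unfold zf
  exact dp_cont _ _

theorem N2_nonneg (M : ℕ) (c : ℕ → ℂ) : 0 ≤ N2 M c := by
  unfold N2
  exact Finset.sum_nonneg fun n _ => by positivity

theorem Ef_cont (D κ : ℝ) (a a2 : ℕ → ℂ) (j : ℕ) : Continuous (Ef D κ a a2 j) := by
  unfold Ef TEx
  refine continuous_finsetProd _ fun l _ => ?_
  refine continuous_finsetSum _ fun r _ => ?_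
  exact ((zf_cont D a a2 l).pow r).div_const _

theorem pw_cont (D κ : ℝ) (a a2 : ℕ → ℂ) (q : ℕ) : Continuous (pw D κ a a2 q) := by
  cases q with
  | zero => exact continuous_const
  | succ j =>
    unfold pw
    exact (((continuous_const.mul (zf_cont D a a2 j))).div_const _).pow _

/-! linearity of `zf` -/

theorem qb_lc {m : ℕ} (D : ℝ) (k : Fin m → ℝ) (a a2 : Fin m → ℕ → ℂ) (j : ℕ) :
    qb D (lc k a) (lc k a2) j = fun n => ∑ i, (k i : ℂ) * qb D (a i) (a2 i) j n := by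
  classical
  funext n
  unfold qb lc
  split_ifs
  · rw [Finset.sum_div, ← Finset.sum_add_distrib]
    exact Finset.sum_congr rfl fun i _ => by ring
  · rw [add_zero]
    exact Finset.sum_congr rfl fun i _ => by ring
  · rw [Finset.sum_div, zero_add]
    exact Finset.sum_congr rfl fun i _ => by ring
  · simp

theorem zf_lc {m : ℕ} (D : ℝ) (k : Fin m → ℝ) (a a2 : Fin m → ℕ → ℂ) (j : ℕ) (t : ℝ) :
    zf D (lc k a) (lc k a2) j t = ∑ i, (k i : ℂ) * zf D (a i) (a2 i) j t := by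
  unfold zf
  rw [qb_lc]
  unfold dp
  simp only [Finset.sum_mul, Finset.mul_sum]
  rw [Finset.sum_comm]
  exact Finset.sum_congr rfl fun i _ => Finset.sum_congr rfl fun n _ => by ring

theorem zf_sub (D : ℝ) (x x2 y y2 : ℕ → ℂ) (j : ℕ) (t : ℝ) :
    zf D (fun n => x n - y n) (fun n => x2 n - y2 n) j t = zf D x x2 j t - zf D y y2 j t := by
  unfold zf dp
  rw [← Finset.sum_sub_distrib]
  refine Finset.sum_congr rfl fun n _ => ?_
  have : qb D (fun n => x n - y n) (fun n => x2 n - y2 n) j n = qb D x x2 j n - qb D y y2 j n := by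
    unfold qb
    split_ifs <;> ring
  rw [this]
  ring

theorem pw_norm (D κ : ℝ) (a a2 : ℕ → ℂ) (j : ℕ) (t : ℝ) : ‖pw D κ a a2 (j + 1) t‖ ^ 2 =
    (20 * ‖zf D a a2 j t‖ / R9 κ j) ^ (2 * s7 j) := by
  unfold pw
  rw [norm_pow, norm_div, norm_mul, Complex.norm_natCast, ← pow_mul, mul_comm (s7 j) 2]
  norm_num

/-- the pointwise inequality -/
theorem pt2_all (h : S_PT2) (m : ℕ) {κ : ℝ} (hκ : 4 ≤ κ) : ∃ C : ℝ, 1 ≤ C ∧ ∀ (D t : ℝ) (k : Fin m → ℝ)
    (a a2 : Fin m → ℕ → ℂ) (ζ : Fin m → ℝ), (∀ i, 0 ≤ k i) → ∑ i, k i ≤ 1 → (∀ i, 0 ≤ ζ i) → ∀ B : ℂ,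
    (∏ i, ζ i ^ (2 * k i)) * ‖B‖ ^ 2 ≤ C * (‖Ef D κ (lc k a) (lc k a2) 0 t * B‖ ^ 2 +
      ∑ i', ζ i' ^ 2 * ‖Ef D κ (fun n => lc k a n - a i' n) (fun n => lc k a2 n - a2 i' n) 0 t *
        pw D κ (a i') (a2 i') 0 t * B‖ ^ 2 +
      ∑ j ∈ Finset.range (JB D), ∑ i, (‖Ef D κ (lc k a) (lc k a2) (j + 1) t * pw D κ (a i) (a2 i) (j + 1) t * B‖ ^ 2 +
        ∑ i', ζ i' ^ 2 * ‖Ef D κ (fun n => lc k a n - a i' n) (fun n => lc k a2 n - a2 i' n) (j + 1) t *
          pw D κ (a i) (a2 i) (j + 1) t * B‖ ^ 2)) := by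
  obtain ⟨C, hC, h⟩ := h m κ hκ
  refine ⟨C, hC, fun D t k a a2 ζ hk hk1 hζ B => ?_⟩
  have h1 := h (JB D) k (fun i l => zf D (a i) (a2 i) l t) ζ hk hk1 hζ
  have h2 := mul_le_mul_of_nonneg_right h1 (by positivity : 0 ≤ ‖B‖ ^ 2)
  refine h2.trans (le_of_eq ?_)
  have e1 : ∀ q : ℕ, ∏ l ∈ Finset.Ico q (JB D), TEx (R9 κ l) (∑ i, (k i : ℂ) * zf D (a i) (a2 i) l t) =
      Ef D κ (lc k a) (lc k a2) q t := by
    intro q
    unfold Ef
    exact Finset.prod_congr rfl fun l _ => by rw [zf_lc]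
  have e2 : ∀ (q : ℕ) (i' : Fin m), ∏ l ∈ Finset.Ico q (JB D), TEx (R9 κ l)
      ((∑ i, (k i : ℂ) * zf D (a i) (a2 i) l t) - zf D (a i') (a2 i') l t) =
      Ef D κ (fun n => lc k a n - a i' n) (fun n => lc k a2 n - a2 i' n) q t := by
    intro q i'
    unfold Ef
    exact Finset.prod_congr rfl fun l _ => by rw [zf_sub, zf_lc]
  simp only [Finset.range_eq_Ico, e1, e2]
  rw [mul_assoc]
  congr 1
  rw [add_mul, add_mul, Finset.sum_mul, Finset.sum_mul]
  congr 1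
  · congr 1
    · rw [norm_mul, mul_pow]
    · refine Finset.sum_congr rfl fun i' _ => ?_
      have : pw D κ (a i') (a2 i') 0 t = 1 := rfl
      rw [this, mul_one, norm_mul, mul_pow]
      ring
  · refine Finset.sum_congr rfl fun j _ => ?_
    rw [mul_assoc, Finset.sum_mul, Finset.mul_sum]
    refine Finset.sum_congr rfl fun i _ => ?_
    rw [← pw_norm, add_mul, Finset.sum_mul]
    congr 1
    · rw [norm_mul, norm_mul, mul_pow, mul_pow]
      ring
    · refine Finset.sum_congr rfl fun i' _ => ?_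
      rw [norm_mul, norm_mul, mul_pow, mul_pow]
      ring

/-! ### mean values -/

theorem ev_len (M : ℕ) : ∀ᶠ V : ℝ in atTop, (M : ℝ) ≤ V ^ (1 / 4 : ℝ) :=
  (tendsto_rpow_atTop (by norm_num : (0 : ℝ) < 1 / 4)).eventually_ge_atTop (M : ℝ)

theorem N2_of_MB (h : S_MVL) {M : ℕ} {c : ℕ → ℂ} {W : ℝ} (hW : MB (fun t => ‖dp M c t‖ ^ 2) W) : N2 M c ≤ 2 * W := by
  obtain ⟨V, hV1, hV2, hV3⟩ := (hW.and ((ev_len M).and (eventually_ge_atTop (16 : ℝ)))).exists
  have h1 := (h V hV3 M hV2 c).1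
  have h2 : V / 2 * N2 M c ≤ V / 2 * (2 * W) := by linarith
  exact le_of_mul_le_mul_left h2 (by linarith)

theorem MB_of (h : S_MVL) (M : ℕ) (c : ℕ → ℂ) : MB (fun t => ‖dp M c t‖ ^ 2) (2 * N2 M c) := by
  unfold MB
  filter_upwards [ev_len M, eventually_ge_atTop (16 : ℝ)] with V hV1 hV2
  have := (h V hV2 M hV1 c).2
  linarith

/-- growth condition -/
theorem ev_grow {C δ θ : ℝ} (hδ : 0 < δ) (hθ : 0 < θ) : ∀ᶠ T : ℝ in atTop,
    2 * Real.exp (C * Real.sqrt (δ * Real.log T)) * ((JB (δ * Real.log T) : ℝ) + 1) ≤ T ^ θ := by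
  have hDt : Tendsto (fun T : ℝ => δ * Real.log T) atTop atTop := Real.tendsto_log_atTop.const_mul_atTop hδ
  have key : ∀ᶠ D : ℝ in atTop, 2 * Real.exp (C * Real.sqrt D) * ((JB D : ℝ) + 1) ≤ Real.exp (θ / δ * D) := by
    have h1 := (isLittleO_pow_exp_pos_mul_atTop 1 (show 0 < θ / δ / 2 by positivity)).bound (show (0 : ℝ) < 1 / 6 by norm_num)
    filter_upwards [h1, eventually_ge_atTop (1 : ℝ), eventually_ge_atTop ((2 * C / (θ / δ)) ^ 2)] with D h1 hD1 hD2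
    rw [Real.norm_eq_abs, Real.norm_eq_abs, pow_one, abs_of_nonneg (by linarith), abs_of_pos (Real.exp_pos _)] at h1
    have hJ : (JB D : ℝ) + 1 ≤ 3 * D := by
      unfold JB
      have h2 : 0 ≤ Real.log (2 * D) := Real.log_nonneg (by linarith)
      have h3 := Nat.ceil_lt_add_one h2
      have h4 := Real.log_le_sub_one_of_pos (show (0 : ℝ) < 2 * D by linarith)
      linarith
    have hs : C * Real.sqrt D ≤ θ / δ / 2 * D := by
      have h5 : 2 * C / (θ / δ) ≤ Real.sqrt D := Real.le_sqrt_of_sq_le hD2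
      have h6 : 0 < θ / δ := by positivity
      rw [div_le_iff₀ h6] at h5
      have h7 : Real.sqrt D * Real.sqrt D = D := Real.mul_self_sqrt (by linarith)
      have h8 : 0 ≤ Real.sqrt D := Real.sqrt_nonneg D
      calc C * Real.sqrt D ≤ (Real.sqrt D * (θ / δ) / 2) * Real.sqrt D := by
            apply mul_le_mul_of_nonneg_right _ h8
            linarith
        _ = θ / δ / 2 * (Real.sqrt D * Real.sqrt D) := by ring
        _ = θ / δ / 2 * D := by rw [h7]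
    calc 2 * Real.exp (C * Real.sqrt D) * ((JB D : ℝ) + 1) ≤ 2 * Real.exp (θ / δ / 2 * D) * (3 * D) := by
          gcongr
      _ = Real.exp (θ / δ / 2 * D) * (6 * D) := by ring
      _ ≤ Real.exp (θ / δ / 2 * D) * Real.exp (θ / δ / 2 * D) := by
          gcongr
          linarith
      _ = Real.exp (θ / δ * D) := by rw [← Real.exp_add]; congr 1; ring
  filter_upwards [hDt.eventually key, eventually_gt_atTop (0 : ℝ)] with T h1 hT
  refine h1.trans (le_of_eq ?_)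
  rw [Real.rpow_def_of_pos hT]
  congr 1
  field_simp

theorem geo_sum (n : ℕ) : ∑ q ∈ Finset.range n, Real.exp (-(2 * (q : ℝ))) ≤ 2 := by
  have h1 : ∀ q : ℕ, Real.exp (-(2 * (q : ℝ))) ≤ (1 / 2 : ℝ) ^ q := by
    intro q
    have h2 : Real.exp (-(2 * (q : ℝ))) = Real.exp (-2) ^ q := by
      rw [← Real.exp_nat_mul]; congr 1; ring
    rw [h2]
    apply pow_le_pow_left₀ (Real.exp_pos _).le
    have h3 : Real.exp (-2) ≤ Real.exp (-1) := Real.exp_le_exp.2 (by norm_num)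
    have h4 := Real.exp_neg_one_lt_d9
    linarith
  calc ∑ q ∈ Finset.range n, Real.exp (-(2 * (q : ℝ))) ≤ ∑ q ∈ Finset.range n, (1 / 2 : ℝ) ^ q :=
        Finset.sum_le_sum fun q _ => h1 q
    _ = ((1 / 2 : ℝ) ^ n - 1) / (1 / 2 - 1) := geom_sum_eq (by norm_num) n
    _ ≤ 2 := by
        have : 0 ≤ (1 / 2 : ℝ) ^ n := by positivity
        rw [div_le_iff_of_neg (by norm_num)]
        linarith

/-! ### integrals over `[T, 2T]` -/

/-- continuous, with integral at most `x` -/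
def IB (T : ℝ) (F : ℝ → ℝ) (x : ℝ) : Prop := Continuous F ∧ ∫ t in T..(2 * T), F t ≤ x

theorem IB.add {T : ℝ} {F G : ℝ → ℝ} {x y : ℝ} (h1 : IB T F x) (h2 : IB T G y) : IB T (fun t => F t + G t) (x + y) := by
  refine ⟨h1.1.add h2.1, ?_⟩
  rw [intervalIntegral.integral_add (h1.1.intervalIntegrable _ _) (h2.1.intervalIntegrable _ _)]
  exact add_le_add h1.2 h2.2

theorem IB.sum {ι : Type*} {T : ℝ} {s : Finset ι} {F : ι → ℝ → ℝ} {x : ι → ℝ} (h : ∀ i ∈ s, IB T (F i) (x i)) :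
    IB T (fun t => ∑ i ∈ s, F i t) (∑ i ∈ s, x i) := by
  refine ⟨continuous_finsetSum _ fun i hi => (h i hi).1, ?_⟩
  rw [intervalIntegral.integral_finsetSum (fun i hi => ((h i hi).1).intervalIntegrable _ _)]
  exact Finset.sum_le_sum fun i hi => (h i hi).2

theorem IB.const_mul {T : ℝ} {F : ℝ → ℝ} {x : ℝ} (h : IB T F x) {c : ℝ} (hc : 0 ≤ c) : IB T (fun t => c * F t) (c * x) := by
  refine ⟨continuous_const.mul h.1, ?_⟩
  rw [intervalIntegral.integral_const_mul]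
  exact mul_le_mul_of_nonneg_left h.2 hc

theorem IB.le {T : ℝ} {F G : ℝ → ℝ} {x : ℝ} (h : IB T F x) (hT : 0 ≤ T) (hG : Continuous G) (hle : ∀ t, G t ≤ F t) :
    ∫ t in T..(2 * T), G t ≤ x :=
  (intervalIntegral.integral_mono_on (by linarith) (hG.intervalIntegrable _ _) (h.1.intervalIntegrable _ _)
    (fun t _ => hle t)).trans h.2

/-- the summation for fixed `T` and `b` -/
theorem ubm_core {m : ℕ} {κ T W CP K1 K2 K3 ε D : ℝ} {N : ℕ} {b : ℕ → ℂ} {k α : Fin m → ℝ} (hT : 0 ≤ T)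
    (hCP : 0 ≤ CP) (hW : 0 ≤ W) (hK3 : 0 ≤ K3) (hK1 : 0 ≤ K1) (hK2 : 0 ≤ K2) (hk : ∀ i, 0 ≤ k i) (hε0 : 0 ≤ ε)
    {a a2 : Fin m → ℕ → ℂ}
    (hP : ∀ t : ℝ, (∏ i, ‖zt (t + α i)‖ ^ (2 * k i)) * ‖dp N b t‖ ^ 2 ≤ CP * (‖Ef D κ (lc k a) (lc k a2) 0 t * dp N b t‖ ^ 2 +
      ∑ i', ‖zt (t + α i')‖ ^ 2 * ‖Ef D κ (fun n => lc k a n - a i' n) (fun n => lc k a2 n - a2 i' n) 0 t *
        pw D κ (a i') (a2 i') 0 t * dp N b t‖ ^ 2 +
      ∑ j ∈ Finset.range (JB D), ∑ i, (‖Ef D κ (lc k a) (lc k a2) (j + 1) t * pw D κ (a i) (a2 i) (j + 1) t * dp N b t‖ ^ 2 +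
        ∑ i', ‖zt (t + α i')‖ ^ 2 * ‖Ef D κ (fun n => lc k a n - a i' n) (fun n => lc k a2 n - a2 i' n) (j + 1) t *
          pw D κ (a i) (a2 i) (j + 1) t * dp N b t‖ ^ 2)))
    (h0 : ∫ t in T..(2 * T), ‖Ef D κ (lc k a) (lc k a2) 0 t * dp N b t‖ ^ 2 ≤ T * W)
    (h1 : ∀ q : ℕ, q ≤ JB D → ∀ i, ∫ t in T..(2 * T), ‖Ef D κ (lc k a) (lc k a2) q t * pw D κ (a i) (a2 i) q t * dp N b t‖ ^ 2 ≤
        K1 * Real.exp (-(2 * (q : ℝ))) * (T * W))
    (h2 : ∀ q : ℕ, q ≤ JB D → ∀ i i', ∫ t in T..(2 * T), ‖zt (t + α i')‖ ^ 2 *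
      ‖Ef D κ (fun n => lc k a n - a i' n) (fun n => lc k a2 n - a2 i' n) q t *
        pw D κ (a i) (a2 i) q t * dp N b t‖ ^ 2 ≤
        (T * W) * (K2 * Real.exp (-(2 * (q : ℝ))) + K3 * ε))
    (hε : ((JB D : ℝ) + 1) * ε ≤ 1) :
    ∫ t in T..(2 * T), (∏ i, ‖zt (t + α i)‖ ^ (2 * k i)) * ‖dp N b t‖ ^ 2 ≤
      CP * (1 + m * (K2 + K3) + m * (K1 * 2) + m * (m * (K2 * 2 + K3))) * (T * W) := by
  have hTW : 0 ≤ T * W := mul_nonneg hT hW
  have c0 : ∀ i, Continuous fun t : ℝ => zt (t + α i) := fun i => zt_cont.comp (by fun_prop)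
  have cE : ∀ (x x2 : ℕ → ℂ) (q : ℕ) (i : Fin m), Continuous fun t => Ef D κ x x2 q t * pw D κ (a i) (a2 i) q t * dp N b t :=
    fun x x2 q i => ((Ef_cont D κ x x2 q).mul (pw_cont D κ (a i) (a2 i) q)).mul (dp_cont N b)
  have i0 : IB T (fun t => ‖Ef D κ (lc k a) (lc k a2) 0 t * dp N b t‖ ^ 2) (T * W) :=
    ⟨((Ef_cont D κ _ _ 0).mul (dp_cont N b)).norm.pow 2, h0⟩
  have i1 : ∀ q : ℕ, q ≤ JB D → ∀ i, IB T (fun t => ‖Ef D κ (lc k a) (lc k a2) q t * pw D κ (a i) (a2 i) q t * dp N b t‖ ^ 2)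
      (K1 * Real.exp (-(2 * (q : ℝ))) * (T * W)) := fun q hq i => ⟨(cE _ _ q i).norm.pow 2, h1 q hq i⟩
  have i2 : ∀ q : ℕ, q ≤ JB D → ∀ i i', IB T (fun t => ‖zt (t + α i')‖ ^ 2 *
      ‖Ef D κ (fun n => lc k a n - a i' n) (fun n => lc k a2 n - a2 i' n) q t *
        pw D κ (a i) (a2 i) q t * dp N b t‖ ^ 2)
        ((T * W) * (K2 * Real.exp (-(2 * (q : ℝ))) + K3 * ε)) := fun q hq i i' =>
    ⟨((c0 i').norm.pow 2).mul ((cE _ _ q i).norm.pow 2), h2 q hq i i'⟩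
  have itot := (i0.add (IB.sum (s := (Finset.univ : Finset (Fin m))) fun i' _ => i2 0 (Nat.zero_le _) i' i')).add
    (IB.sum (s := Finset.range (JB D)) fun j hj => IB.sum (s := (Finset.univ : Finset (Fin m))) fun i _ =>
      (i1 (j + 1) (by have := Finset.mem_range.1 hj; omega) i).add
        (IB.sum (s := (Finset.univ : Finset (Fin m))) fun i' _ => i2 (j + 1) (by have := Finset.mem_range.1 hj; omega) i i'))
  have itot' := itot.const_mul hCP
  have hcont : Continuous fun t : ℝ => (∏ i, ‖zt (t + α i)‖ ^ (2 * k i)) * ‖dp N b t‖ ^ 2 := by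
    refine Continuous.mul (continuous_finsetProd _ fun i _ => ?_) ((dp_cont N b).norm.pow 2)
    exact (c0 i).norm.rpow_const fun t => Or.inr (by have := hk i; linarith)
  refine (itot'.le hT hcont hP).trans ?_
  rw [mul_assoc CP]
  refine mul_le_mul_of_nonneg_left ?_ hCP
  simp only [Finset.sum_const, Finset.card_univ, Fintype.card_fin, nsmul_eq_mul]
  have g := geo_sum (JB D + 1)
  rw [Finset.sum_range_succ'] at g
  have g1 : ∑ j ∈ Finset.range (JB D), Real.exp (-(2 * ((j + 1 : ℕ) : ℝ))) ≤ 2 := by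
    have : 0 ≤ Real.exp (-(2 * ((0 : ℕ) : ℝ))) := (Real.exp_pos _).le
    linarith
  have g2 : (JB D : ℝ) * ε ≤ 1 := by
    have : ((JB D : ℝ) + 1) * ε = (JB D : ℝ) * ε + ε := by ring
    linarith
  have g3 : ε ≤ 1 := by
    have : 0 ≤ (JB D : ℝ) * ε := by positivity
    have : ((JB D : ℝ) + 1) * ε = (JB D : ℝ) * ε + ε := by ring
    linarith
  have hm0 : (0 : ℝ) ≤ m := Nat.cast_nonneg m
  set G := T * W with hG
  have e1 : ∑ j ∈ Finset.range (JB D), ((m : ℝ) * (K1 * Real.exp (-(2 * ((j + 1 : ℕ) : ℝ))) * G +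
      (m : ℝ) * (G * (K2 * Real.exp (-(2 * ((j + 1 : ℕ) : ℝ))) + K3 * ε)))) =
      (m * K1 + m * m * K2) * G * (∑ j ∈ Finset.range (JB D), Real.exp (-(2 * ((j + 1 : ℕ) : ℝ)))) +
        m * m * K3 * G * ((JB D : ℝ) * ε) := by
    rw [Finset.mul_sum]
    have : m * m * K3 * G * ((JB D : ℝ) * ε) = ∑ j ∈ Finset.range (JB D), m * m * K3 * G * ε := by
      rw [Finset.sum_const, Finset.card_range, nsmul_eq_mul]
      ring
    rw [this, ← Finset.sum_add_distrib]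
    exact Finset.sum_congr rfl fun j _ => by ring
  have e2 : Real.exp (-(2 * ((0 : ℕ) : ℝ))) = 1 := by simp
  rw [e1, e2]
  have f1 : (m * K1 + m * m * K2) * G * (∑ j ∈ Finset.range (JB D), Real.exp (-(2 * ((j + 1 : ℕ) : ℝ)))) ≤
      (m * K1 + m * m * K2) * G * 2 := mul_le_mul_of_nonneg_left g1 (by positivity)
  have f2 : m * m * K3 * G * ((JB D : ℝ) * ε) ≤ m * m * K3 * G * 1 := mul_le_mul_of_nonneg_left g2 (by positivity)
  have f3 : (m : ℝ) * (G * (K2 * 1 + K3 * ε)) ≤ m * (G * (K2 * 1 + K3 * 1)) := by gcongr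
  calc _ ≤ G + m * (G * (K2 * 1 + K3 * 1)) + ((m * K1 + m * m * K2) * G * 2 + m * m * K3 * G * 1) :=
        add_le_add (add_le_add le_rfl f3) (add_le_add f1 f2)
    _ = _ := by ring

theorem ua_norm (α : ℝ) (n : ℕ) : ‖ua α n‖ ≤ 1 := by
  unfold ua
  rcases Nat.eq_zero_or_pos n with h | h
  · subst h
    by_cases hα : α = 0
    · subst hα; simp
    · rw [Nat.cast_zero, Complex.zero_cpow (by simp [hα])]
      simp
  · rw [Complex.norm_natCast_cpow_of_pos h]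
    simp

theorem t_UBM : J_UBM := by
  intro hP2 hTOR hCOF hTSB hDPM hMVL m
  obtain ⟨κ₁, hκ₁, hTOR⟩ := hTOR m
  refine ⟨κ₁, hκ₁, fun κ hκ => ?_⟩
  have hκ4 : 4 ≤ κ := hκ₁.trans hκ
  obtain ⟨CT, hCT, hTOR⟩ := hTOR κ hκ
  obtain ⟨CP, hCP, hP⟩ := pt2_all hP2 m hκ4
  obtain ⟨θ₀, hθ₀, hθ₀8, hTSB⟩ := hTSB
  refine ⟨θ₀ / (26 * κ + 5), by positivity, fun δ hδ0 hδ1 => ?_⟩
  have hδ2 : (26 * κ + 5) * δ ≤ θ₀ := by
    rw [le_div_iff₀ (by positivity)] at hδ1
    linarith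
  have hδ3 : δ ≤ 1 := by nlinarith
  obtain ⟨CS, hCS, hTS⟩ := hTSB δ hδ0 hδ3
  refine ⟨δ, CP * (1 + m * (CS * CT + CS) + m * ((4 * CT) * 2) + m * (m * ((CS * CT) * 2 + CS))) * 2, hδ0, by positivity, ?_⟩
  have hgrow := ev_grow (C := CT) (δ := δ) (θ := θ₀) hδ0 hθ₀
  filter_upwards [hTS, hgrow, eventually_ge_atTop (16 : ℝ), Real.tendsto_log_atTop.eventually_ge_atTop 1,
    Real.tendsto_log_atTop.eventually_ge_atTop (1 / δ)] with T hTS hgrow hT hL1 hLδ k α hk hk1 hα N hN b hb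
  have hT0 : 0 < T := by linarith
  have hT1 : 1 ≤ T := by linarith
  have hL0 : 0 < Real.log T := by linarith
  have hDexp : Real.exp (δ * Real.log T) = T ^ δ := by
    rw [Real.rpow_def_of_pos hT0, mul_comm]
  obtain ⟨D, hDd⟩ : ∃ D : ℝ, D = δ * Real.log T := ⟨_, rfl⟩
  rw [← hDd] at hgrow hDexp hTS ⊢
  have hD1 : 1 ≤ D := by
    rw [hDd]
    rw [div_le_iff₀ hδ0] at hLδ
    linarith
  rcases Nat.eq_zero_or_pos N with hN0 | hN1
  · -- trivial case
    subst hN0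
    have h1 : ∀ t, dp 0 b t = 0 := fun t => by simp [dp]
    simp only [h1, norm_zero]
    have h2 : ∫ t in T..(2 * T), (∏ j, ‖zt (t + α j)‖ ^ (2 * k j)) * (0 : ℝ) ^ 2 = 0 := by
      simp
    rw [h2]
    have := N2_nonneg (M9 D κ * 0) (cv (ebk D κ (ap k α) (ap k (fun j => 2 * α j)) 0 (JB D)) b)
    positivity
  have hNr : (1 : ℝ) ≤ N := by exact_mod_cast hN1
  have hlogN : Real.log N ≤ D := by
    have h1 := Real.log_le_log (by linarith) hN
    rw [Real.log_rpow hT0] at h1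
    rw [hDd]
    exact h1
  -- the polynomial and `W`
  set a : Fin m → ℕ → ℂ := fun i => ua (α i) with ha
  set a2 : Fin m → ℕ → ℂ := fun i => ua (2 * α i) with ha2
  have hla : ap k α = lc k a := rfl
  have hla2 : ap k (fun j => 2 * α j) = lc k a2 := rfl
  rw [hla, hla2]
  set e := ebk D κ (lc k a) (lc k a2) 0 (JB D) with he
  obtain ⟨W, hW⟩ : ∃ W : ℝ, W = 2 * N2 (M9 D κ * N) (cv e b) := ⟨_, rfl⟩
  have hW0 : 0 ≤ W := by rw [hW]; have := N2_nonneg (M9 D κ * N) (cv e b); positivity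
  have hκ1 : 1 ≤ κ := by linarith
  have hbN : ∀ n, N < n → b n = 0 := by
    intro n hn
    by_contra h
    have := (hb n h).2
    omega
  have hWe : ∀ t, dp (M9 D κ * N) (cv e b) t = Ef D κ (lc k a) (lc k a2) 0 t * dp N b t := by
    obtain ⟨he1, he2, -⟩ := hCOF κ D hκ1 hD1 (lc k a) (lc k a2) (fun _ => 1) (fun _ => 1) 0 0
    rw [Nat.sub_zero, ← he] at he1 he2
    have heN : ∀ n, M9 D κ < n → e n = 0 := by
      intro n hn
      by_contra h
      have := (he1 n h).2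
      omega
    intro t
    rw [← hDPM.1 (M9 D κ) N e b t heN hbN, he2]
  have hWMB : MB (fun t => ‖Ef D κ (lc k a) (lc k a2) 0 t * dp N b t‖ ^ 2) W := by
    have h1 := MB_of hMVL (M9 D κ * N) (cv e b)
    rw [hW]
    simpa only [hWe] using h1
  have hfam : FamD k a a2 := ⟨hk, hk1, fun i n => ua_norm _ _, fun i n => ua_norm _ _⟩
  have hTORq := hTOR D hD1 k a a2 hfam N b hN1 hlogN hb W hWMB
  have hlen : ∀ M : ℕ, 1 ≤ M → Real.log M ≤ (26 * κ + 4) * D + Real.log N → (M : ℝ) ≤ T ^ θ₀ := by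
    intro M hM hMl
    have h1 : Real.log M ≤ θ₀ * Real.log T := by
      have h2 : (26 * κ + 4) * D + Real.log N ≤ (26 * κ + 5) * δ * Real.log T := by
        have h3 : (26 * κ + 4) * D + Real.log N ≤ (26 * κ + 4) * D + D := by linarith
        refine h3.trans (le_of_eq ?_)
        rw [hDd]; ring
      have h4 : (26 * κ + 5) * δ * Real.log T ≤ θ₀ * Real.log T := mul_le_mul_of_nonneg_right hδ2 hL0.le
      linarith
    have hM1 : (0 : ℝ) < M := by exact_mod_cast hM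
    rw [Real.rpow_def_of_pos hT0, ← Real.exp_log hM1]
    apply Real.exp_le_exp.2
    linarith
  have hmono : ∀ {x y : ℝ}, x ≤ y → T ^ x ≤ T ^ y := fun h => Real.rpow_le_rpow_of_exponent_le hT1 h
  have hθ4 : T ^ θ₀ ≤ T ^ (1 / 4 : ℝ) := hmono (by linarith)
  -- the main term
  have part0 : ∫ t in T..(2 * T), ‖Ef D κ (lc k a) (lc k a2) 0 t * dp N b t‖ ^ 2 ≤ T * W := by
    have hl : ((M9 D κ * N : ℕ) : ℝ) ≤ T ^ (1 / 4 : ℝ) := by
      refine le_trans ?_ hθ4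
      push_cast
      have h1 : ((M9 D κ : ℕ) : ℝ) ≤ Real.exp (26 * κ * D) := Nat.floor_le (Real.exp_pos _).le
      have h2 : (N : ℝ) ≤ Real.exp D := by
        rw [hDexp]; exact hN
      calc ((M9 D κ : ℕ) : ℝ) * N ≤ Real.exp (26 * κ * D) * Real.exp D := by gcongr
        _ = Real.exp ((26 * κ + 1) * D) := by rw [← Real.exp_add]; congr 1; ring
        _ ≤ Real.exp (Real.log T * θ₀) := by
            apply Real.exp_le_exp.2
            rw [hDd]
            have : (26 * κ + 1) * (δ * Real.log T) ≤ (26 * κ + 5) * δ * Real.log T := by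
              have : 0 ≤ δ * Real.log T := by positivity
              nlinarith
            have h4 : (26 * κ + 5) * δ * Real.log T ≤ θ₀ * Real.log T := mul_le_mul_of_nonneg_right hδ2 hL0.le
            linarith
        _ = T ^ θ₀ := by rw [Real.rpow_def_of_pos hT0]
    have h1 := (hMVL T hT (M9 D κ * N) hl (cv e b)).2
    simp only [hWe] at h1
    refine h1.trans (le_of_eq ?_)
    rw [hW]; ring
  -- the first part
  have part1 : ∀ q : ℕ, q ≤ JB D → ∀ i, ∫ t in T..(2 * T), ‖Ef D κ (lc k a) (lc k a2) q t * pw D κ (a i) (a2 i) q t * dp N b t‖ ^ 2 ≤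
        (4 * CT) * Real.exp (-(2 * (q : ℝ))) * (T * W) := by
    intro q hq i
    obtain ⟨-, -, h1⟩ := hCOF κ D hκ1 hD1 (lc k a) (lc k a2) (a i) (a2 i) q q
    obtain ⟨M, c, hM1, hMl, hcs, hdp⟩ := h1 N b hN1 hlogN hb
    have h2 := (hTORq i i q hq).2.1
    simp only [← hdp] at h2 ⊢
    have h3 := N2_of_MB hMVL h2
    have h4 := (hMVL T hT M ((hlen M hM1 hMl).trans hθ4) c).2
    refine h4.trans ?_
    calc 2 * T * N2 M c ≤ 2 * T * (2 * (CT * Real.exp (-(2 * (q : ℝ))) * W)) := by gcongr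
      _ = _ := by ring
  -- the second part
  have part2 : ∀ q : ℕ, q ≤ JB D → ∀ i i', ∫ t in T..(2 * T), ‖zt (t + α i')‖ ^ 2 *
      ‖Ef D κ (fun n => lc k a n - a i' n) (fun n => lc k a2 n - a2 i' n) q t *
        pw D κ (a i) (a2 i) q t * dp N b t‖ ^ 2 ≤
        (T * W) * ((CS * CT) * Real.exp (-(2 * (q : ℝ))) + CS * (T ^ (-θ₀) * (2 * Real.exp (CT * Real.sqrt D)))) := by
    intro q hq i i'
    obtain ⟨-, -, h1⟩ := hCOF κ D hκ1 hD1 (fun n => lc k a n - a i' n) (fun n => lc k a2 n - a2 i' n) (a i) (a2 i) q q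
    obtain ⟨M, c, hM1, hMl, hcs, hdp⟩ := h1 N b hN1 hlogN hb
    obtain ⟨h2, -, h3⟩ := hTORq i' i q hq
    simp only [← hdp] at h2 h3 ⊢
    have h4 := N2_of_MB hMVL h3
    have hMm := hlen M hM1 hMl
    have h5 := hTS (α i') (hα i') M c hMm (fun n hn => by
      rw [← hDexp]
      exact hcs n hn) (CT * Real.exp (-(2 * (q : ℝ))) * W) h2
    refine h5.trans ?_
    have hTθ0 : 0 ≤ T ^ (-θ₀) := Real.rpow_nonneg hT0.le _
    calc CS * T * (CT * Real.exp (-(2 * (q : ℝ))) * W + T ^ (-θ₀) * N2 M c) ≤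
        CS * T * (CT * Real.exp (-(2 * (q : ℝ))) * W + T ^ (-θ₀) * (2 * (Real.exp (CT * Real.sqrt D) * W))) := by gcongr
      _ = _ := by ring
  have hε : ((JB D : ℝ) + 1) * (T ^ (-θ₀) * (2 * Real.exp (CT * Real.sqrt D))) ≤ 1 := by
    have h1 : T ^ (-θ₀) * T ^ θ₀ = 1 := by
      rw [← Real.rpow_add hT0, neg_add_cancel, Real.rpow_zero]
    calc ((JB D : ℝ) + 1) * (T ^ (-θ₀) * (2 * Real.exp (CT * Real.sqrt D))) =
        T ^ (-θ₀) * (2 * Real.exp (CT * Real.sqrt D) * ((JB D : ℝ) + 1)) := by ring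
      _ ≤ T ^ (-θ₀) * T ^ θ₀ := mul_le_mul_of_nonneg_left hgrow (Real.rpow_nonneg hT0.le _)
      _ = 1 := h1
  have hfin := ubm_core (m := m) (κ := κ) (T := T) (W := W) (D := D) (N := N) (b := b) (k := k) (α := α) (a := a) (a2 := a2)
    hT0.le (by linarith : (0 : ℝ) ≤ CP) hW0 hCS (by positivity) (by positivity) hk
    (by have := Real.rpow_nonneg hT0.le (-θ₀); positivity)
    (fun t => hP D t k a a2 (fun i => ‖zt (t + α i)‖) hk hk1 (fun i => norm_nonneg _) (dp N b t))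
    part0 part1 part2 hε
  refine hfin.trans (le_of_eq ?_)
  rw [hW]
  ring

end

end Pool.Agent.Q184.UM
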